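import Pool.Agent.Helper57.NW.Defs

/-!
# NW: V2, the variance with the flattened weights
-/

set_option autoImplicit false
open MeasureTheory Set Filter Topology
open Pool.Agent.Helper69.UG (XX NX)
open Pool.Agent.Helper57.TX (QX DP rs)
open Pool.Agent.Helper57.NW

namespace Pool.Agent.Helper49.NW

theorem ratio_ge {d R L : ℝ} (hL : 1 ≤ L) (hR : 1 ≤ R) (hRL : R ≤ L ^ (1 - d)) : L ^ d ≤ L / R := by
  have hL0 : 0 < L := by linarith
  rw [le_div_iff₀ (by linarith)]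
  calc L ^ d * R ≤ L ^ d * L ^ (1 - d) := mul_le_mul_of_nonneg_left hRL (Real.rpow_nonneg hL0.le _)
    _ = L := by rw [← Real.rpow_add hL0]; norm_num

theorem one_norm {T X M C1 : ℝ} (h : ∑ p ∈ QX (XX T M), rs (XX T M) p ^ 2 / p ≤ C1) :
    ∑ p ∈ QX X, (if Real.log p ≤ XX T M then rs (XX T M) p else 0) ^ 2 / (p : ℝ) ≤ C1 := by
  refine le_trans ?_ h
  have e : ∀ p ∈ QX X, (if Real.log p ≤ XX T M then rs (XX T M) p else 0) ^ 2 / (p : ℝ) =
      if Real.log p ≤ XX T M then rs (XX T M) p ^ 2 / (p : ℝ) else 0 := by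
    intro p _
    split_ifs <;> simp
  rw [Finset.sum_congr rfl e, ← Finset.sum_filter]
  refine Finset.sum_le_sum_of_subset_of_nonneg ?_ fun p _ _ => by positivity
  intro p hp
  rw [Finset.mem_filter] at hp
  obtain ⟨hp1, hp2⟩ := hp
  unfold QX at hp1 ⊢
  rw [Finset.mem_filter] at hp1 ⊢
  refine ⟨?_, hp1.2⟩
  rw [Finset.mem_range]
  have hp0 : (0 : ℝ) < p := by exact_mod_cast hp1.2.pos
  have h1 : (p : ℝ) ≤ Real.exp (XX T M) := by rwa [← Real.log_le_iff_le_exp hp0]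
  have h2 : p ≤ ⌊Real.exp (XX T M)⌋₊ := Nat.le_floor h1
  omega

theorem cs (J : Finset ℕ) (c r : ℕ → ℝ) :
    (∑ j ∈ J, c j * r j) ^ 2 ≤ (∑ j ∈ J, |c j|) * ∑ j ∈ J, |c j| * r j ^ 2 := by
  refine Finset.sum_sq_le_sum_mul_sum_of_sq_le_mul J (fun j _ => abs_nonneg _) (fun j _ => by positivity) fun j _ => ?_
  rw [mul_pow, ← sq_abs (c j)]
  exact le_of_eq (by ring)

/-- V2, from V0, V1, FL1 -/
theorem var_w_of {k d : ℝ} (hk : 0 < k) (hk8 : k ≤ 1 / 8) (hd : 0 < d) (hd1 : d ≤ 1) (n : ℕ)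
    (norm_one : ∃ C T₀ : ℝ, 1 ≤ C ∧ ∀ T M : ℝ, T₀ ≤ T → 1 ≤ M → M ≤ Real.log T →
      ∑ p ∈ QX (XX T M), rs (XX T M) p ^ 2 / p ≤ C)
    (var_up0 : ∃ C T₀ : ℝ, 1 ≤ C ∧ ∀ T R L : ℝ,
      T₀ ≤ T → C ≤ L → L ≤ Real.log T → 1 ≤ R → R ≤ L ^ (1 - d) → Vw k T R L 0 ≤ (1 + 5 * k) / Real.log (L / R))
    (var_low0 : ∃ C T₀ : ℝ, 1 ≤ C ∧ ∀ T R L : ℝ,
      T₀ ≤ T → C ≤ L → L ≤ Real.log T → 1 ≤ R → R ≤ L ^ (1 - d) → (1 - 6 * k) / Real.log (L / R) ≤ Vw k T R L 0)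
    (bw_facts : ∃ B C : ℝ, 1 ≤ B ∧ 1 ≤ C ∧
      ∀ R L : ℝ, C ≤ L → 1 ≤ R → R ≤ L ^ (1 - d) →
      (∀ j, bw k R L n j ≠ 0 → j ∈ Jw k L n ∧ R * (L / R) ^ k ≤ (1 + k) ^ j ∧
        (1 + k) ^ j ≤ (1 + k) ^ n * (L * (L / R) ^ (-k))) ∧
      ∑ j ∈ Jw k L n, |bw k R L n j| ≤ B ∧
      ∑ j ∈ Jw k L n, |bw k R L n j - bw k R L 0 j| ≤ B / Real.log (L / R)) :
    ∃ C T₀ : ℝ, 1 ≤ C ∧ ∀ T R L : ℝ,
    T₀ ≤ T → C ≤ L → L ≤ Real.log T → 1 ≤ R → R ≤ L ^ (1 - d) →
    (1 - 7 * k) / Real.log (L / R) ≤ Vw k T R L n ∧ Vw k T R L n ≤ (1 + 6 * k) / Real.log (L / R) := by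
  obtain ⟨C1, T1, hC1, h1⟩ := norm_one
  obtain ⟨C2, T2, hC2, h2⟩ := var_up0
  obtain ⟨C3, T3, hC3, h3⟩ := var_low0
  obtain ⟨B, C4, hB, hC4, h4⟩ := bw_facts
  have ev1 : ∀ᶠ L : ℝ in atTop, (1 + k) ^ n ≤ L ^ (d * k) :=
    (tendsto_rpow_atTop (by positivity)).eventually_ge_atTop _
  have ev2 : ∀ᶠ L : ℝ in atTop, (1 + 2 / k) * (B ^ 2 * C1) / (k / 8) ≤ d * Real.log L :=
    (Real.tendsto_log_atTop.const_mul_atTop hd).eventually_ge_atTop _
  obtain ⟨L0, hL0⟩ := eventually_atTop.mp (ev1.and (ev2.and (eventually_gt_atTop (1 : ℝ))))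
  refine ⟨max (max C2 C3) (max C4 (max L0 1)), max T1 (max T2 T3),
    (le_max_right L0 1).trans ((le_max_right _ _).trans (le_max_right _ _)), fun T R L hT hL hLT hR hRL => ?_⟩
  have g1 : T1 ≤ T := (le_max_left _ _).trans hT
  have g2 : T2 ≤ T := (le_max_left _ _).trans ((le_max_right _ _).trans hT)
  have g3 : T3 ≤ T := (le_max_right _ _).trans ((le_max_right _ _).trans hT)
  have c2 : C2 ≤ L := (le_max_left _ _).trans ((le_max_left _ _).trans hL)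
  have c3 : C3 ≤ L := (le_max_right _ _).trans ((le_max_left _ _).trans hL)
  have c4 : C4 ≤ L := (le_max_left _ _).trans ((le_max_right _ _).trans hL)
  have c5 : L0 ≤ L := (le_max_left _ _).trans ((le_max_right _ _).trans ((le_max_right _ _).trans hL))
  obtain ⟨f1, f2, hL1⟩ := hL0 L c5
  have hLp : 0 < L := by linarith
  have hR0 : 0 < R := by linarith
  have hrat := ratio_ge hL1.le hR hRL
  have hLd : 1 ≤ L ^ d := Real.one_le_rpow hL1.le hd.le
  have hLR1 : 1 ≤ L / R := hLd.trans hrat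
  have hLR0 : 0 < L / R := by linarith
  obtain ⟨l, hl⟩ : ∃ l : ℝ, l = Real.log (L / R) := ⟨_, rfl⟩
  have hlog : d * Real.log L ≤ l := by
    rw [hl, ← Real.log_rpow hLp]
    exact Real.log_le_log (by positivity) hrat
  have hlB : (1 + 2 / k) * (B ^ 2 * C1) / (k / 8) ≤ l := f2.trans hlog
  have hBC : 0 < B ^ 2 * C1 := by positivity
  have hl0 : 0 < l := lt_of_lt_of_le (by positivity) hlB
  have hV0 := h2 T R L g2 c2 hLT hR hRL
  have hV1 := h3 T R L g3 c3 hLT hR hRL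
  obtain ⟨b1, -, b3⟩ := h4 R L c4 hR hRL
  rw [← hl] at hV0 hV1 b3 ⊢
  -- the size of the scales
  have hsc : ∀ j, bw k R L n j - bw k R L 0 j ≠ 0 → (1 + k) ^ j ≤ Real.log T := by
    intro j hj
    refine le_trans ?_ hLT
    have hneg : (L / R) ^ (-k) ≤ 1 := Real.rpow_le_one_of_one_le_of_nonpos hLR1 (by linarith)
    by_cases h0 : bw k R L n j = 0
    · have h5 : bw k R L 0 j ≠ 0 := by
        intro h6
        apply hj
        rw [h0, h6, sub_zero]
      have h6 : j ∈ Sc k R L := by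
        by_contra h7
        apply h5
        show (if j ∈ Sc k R L then 3 / (2 * ((Sc k R L).card : ℝ)) else 0) = 0
        rw [if_neg h7]
      unfold Sc at h6
      rw [Finset.mem_filter] at h6
      refine h6.2.2.trans ?_
      calc L * (L / R) ^ (-k) ≤ L * 1 := mul_le_mul_of_nonneg_left hneg hLp.le
        _ = L := mul_one L
    · obtain ⟨-, -, h6⟩ := b1 j h0
      refine h6.trans ?_
      have h7 : (1 + k) ^ n ≤ (L / R) ^ k := by
        refine f1.trans ?_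
        rw [Real.rpow_mul hLp.le]
        exact Real.rpow_le_rpow (by positivity) hrat hk.le
      have h8 : (L / R) ^ k * (L / R) ^ (-k) = 1 := by
        rw [← Real.rpow_add hLR0]; simp
      calc (1 + k) ^ n * (L * (L / R) ^ (-k)) ≤ (L / R) ^ k * (L * (L / R) ^ (-k)) :=
            mul_le_mul_of_nonneg_right h7 (by positivity)
        _ = L * ((L / R) ^ k * (L / R) ^ (-k)) := by ring
        _ = L := by rw [h8, mul_one]
  -- notation
  obtain ⟨Q, hQ⟩ : ∃ Q : Finset ℕ, Q = QX (Xr k T R L) := ⟨_, rfl⟩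
  obtain ⟨r, hr⟩ : ∃ r : ℕ → ℕ → ℝ, r = fun (j p : ℕ) =>
      if Real.log (p : ℝ) ≤ XX T ((1 + k) ^ j) then rs (XX T ((1 + k) ^ j)) p else 0 := ⟨_, rfl⟩
  obtain ⟨a, ha⟩ : ∃ a : ℕ → ℝ, a = fun p => ∑ j ∈ Jw k L n, bw k R L 0 j * r j p := ⟨_, rfl⟩
  obtain ⟨δ, hδ⟩ : ∃ δ : ℕ → ℝ, δ = fun p => ∑ j ∈ Jw k L n, (bw k R L n j - bw k R L 0 j) * r j p := ⟨_, rfl⟩
  have hrn : ∀ p, rb k T (Jw k L n) (bw k R L n) p = a p + δ p := by
    intro p
    rw [ha, hδ]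
    simp only
    rw [← Finset.sum_add_distrib]
    unfold rb
    refine Finset.sum_congr rfl fun j _ => ?_
    rw [hr]
    ring
  have hr0 : ∀ p, rb k T (Jw k L 0) (bw k R L 0) p = a p := by
    intro p
    rw [ha]
    simp only
    unfold rb
    rw [hr]
    refine Finset.sum_subset ?_ ?_
    · unfold Jw
      exact Finset.range_mono (by omega)
    · intro j _ hj
      have : bw k R L 0 j = 0 := by
        show (if j ∈ Sc k R L then 3 / (2 * ((Sc k R L).card : ℝ)) else 0) = 0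
        rw [if_neg]
        intro h6
        unfold Sc at h6
        rw [Finset.mem_filter] at h6
        apply hj
        unfold Jw
        simpa using h6.1
      rw [this, zero_mul]
  have hVn : Vw k T R L n = ∑ p ∈ Q, (a p + δ p) ^ 2 / p := by
    unfold Vw
    rw [← hQ]
    exact Finset.sum_congr rfl fun p _ => by rw [hrn]
  have hV0e : Vw k T R L 0 = ∑ p ∈ Q, a p ^ 2 / p := by
    unfold Vw
    rw [← hQ]
    exact Finset.sum_congr rfl fun p _ => by rw [hr0]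
  -- the difference
  have hD0 : 0 ≤ ∑ j ∈ Jw k L n, |bw k R L n j - bw k R L 0 j| := Finset.sum_nonneg fun j _ => abs_nonneg _
  have hW : ∑ p ∈ Q, δ p ^ 2 / p ≤ B ^ 2 * C1 / l ^ 2 := by
    have e1 : ∀ p ∈ Q, δ p ^ 2 / (p : ℝ) ≤ (∑ j ∈ Jw k L n, |bw k R L n j - bw k R L 0 j|) *
        ∑ j ∈ Jw k L n, |bw k R L n j - bw k R L 0 j| * (r j p ^ 2 / p) := by
      intro p _
      have h5 := cs (Jw k L n) (fun j => bw k R L n j - bw k R L 0 j) (fun j => r j p)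
      rw [hδ]
      simp only
      have h6 := div_le_div_of_nonneg_right h5 (Nat.cast_nonneg p : (0 : ℝ) ≤ p)
      refine h6.trans (le_of_eq ?_)
      rw [mul_div_assoc, Finset.sum_div]
      congr 1
      exact Finset.sum_congr rfl fun j _ => by ring
    refine (Finset.sum_le_sum e1).trans ?_
    rw [← Finset.mul_sum, Finset.sum_comm]
    have e2 : ∑ j ∈ Jw k L n, ∑ p ∈ Q, |bw k R L n j - bw k R L 0 j| * (r j p ^ 2 / p) ≤
        ∑ j ∈ Jw k L n, |bw k R L n j - bw k R L 0 j| * C1 := by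
      refine Finset.sum_le_sum fun j _ => ?_
      rw [← Finset.mul_sum]
      by_cases h0 : bw k R L n j - bw k R L 0 j = 0
      · rw [h0, abs_zero, zero_mul, zero_mul]
      · refine mul_le_mul_of_nonneg_left ?_ (abs_nonneg _)
        have h7 := hsc j h0
        have h8 : 1 ≤ (1 + k) ^ j := one_le_pow₀ (by linarith)
        have h9 := one_norm (X := Xr k T R L) (h1 T ((1 + k) ^ j) g1 h8 h7)
        rw [hQ, hr]
        exact h9
    rw [← Finset.sum_mul] at e2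
    have hBl : 0 ≤ B / l := by positivity
    calc (∑ j ∈ Jw k L n, |bw k R L n j - bw k R L 0 j|) *
          ∑ j ∈ Jw k L n, ∑ p ∈ Q, |bw k R L n j - bw k R L 0 j| * (r j p ^ 2 / p)
        ≤ (∑ j ∈ Jw k L n, |bw k R L n j - bw k R L 0 j|) *
          ((∑ j ∈ Jw k L n, |bw k R L n j - bw k R L 0 j|) * C1) := mul_le_mul_of_nonneg_left e2 hD0
      _ ≤ (B / l) * ((B / l) * C1) :=
          mul_le_mul b3 (mul_le_mul_of_nonneg_right b3 (by linarith)) (by positivity) hBl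
      _ = B ^ 2 * C1 / l ^ 2 := by field_simp
  have hW2 : (1 + 2 / k) * (B ^ 2 * C1 / l ^ 2) ≤ (k / 8) / l := by
    rw [div_le_iff₀ (by positivity)] at hlB
    rw [le_div_iff₀ hl0]
    have : (1 + 2 / k) * (B ^ 2 * C1 / l ^ 2) * l = (1 + 2 / k) * (B ^ 2 * C1) / l := by field_simp
    rw [this, div_le_iff₀ hl0]
    linarith
  have hW0 : 0 ≤ ∑ p ∈ Q, δ p ^ 2 / (p : ℝ) := Finset.sum_nonneg fun p _ => by positivity
  have hk2 : 0 < 2 / k := by positivity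
  constructor
  · -- lower bound
    have e3 : (1 - k / 2) * (∑ p ∈ Q, a p ^ 2 / (p : ℝ)) - 2 / k * ∑ p ∈ Q, δ p ^ 2 / (p : ℝ) ≤
        ∑ p ∈ Q, (a p + δ p) ^ 2 / (p : ℝ) := by
      rw [Finset.mul_sum, Finset.mul_sum, ← Finset.sum_sub_distrib]
      refine Finset.sum_le_sum fun p _ => ?_
      have h5 : (1 - k / 2) * a p ^ 2 - 2 / k * δ p ^ 2 ≤ (a p + δ p) ^ 2 := by
        have h6 : 0 ≤ (k / 2) * (a p + 2 / k * δ p) ^ 2 := by positivity
        have h7 : (k / 2) * (a p + 2 / k * δ p) ^ 2 = k / 2 * a p ^ 2 + 2 * a p * δ p + 2 / k * δ p ^ 2 := by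
          field_simp
          ring
        nlinarith [sq_nonneg (δ p)]
      have h6 := div_le_div_of_nonneg_right h5 (Nat.cast_nonneg p : (0 : ℝ) ≤ p)
      refine le_trans (le_of_eq ?_) h6
      ring
    rw [hVn]
    refine le_trans ?_ e3
    rw [← hV0e]
    have h8 : 2 / k * ∑ p ∈ Q, δ p ^ 2 / (p : ℝ) ≤ (k / 8) / l := by
      refine le_trans ?_ hW2
      have h9 := mul_le_mul_of_nonneg_left hW hk2.le
      have h10 : 0 ≤ B ^ 2 * C1 / l ^ 2 := by positivity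
      nlinarith
    have h9 : (1 - k / 2) * ((1 - 6 * k) / l) ≤ (1 - k / 2) * Vw k T R L 0 :=
      mul_le_mul_of_nonneg_left hV1 (by linarith)
    have h10 : (1 - 7 * k) / l ≤ (1 - k / 2) * ((1 - 6 * k) / l) - (k / 8) / l := by
      rw [← mul_div_assoc, ← sub_div]
      exact div_le_div_of_nonneg_right (by nlinarith) hl0.le
    linarith
  · -- upper bound
    have e3 : ∑ p ∈ Q, (a p + δ p) ^ 2 / (p : ℝ) ≤
        (1 + k / 2) * (∑ p ∈ Q, a p ^ 2 / (p : ℝ)) + (1 + 2 / k) * ∑ p ∈ Q, δ p ^ 2 / (p : ℝ) := by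
      rw [Finset.mul_sum, Finset.mul_sum, ← Finset.sum_add_distrib]
      refine Finset.sum_le_sum fun p _ => ?_
      have h5 : (a p + δ p) ^ 2 ≤ (1 + k / 2) * a p ^ 2 + (1 + 2 / k) * δ p ^ 2 := by
        have h6 : 0 ≤ (k / 2) * (a p - 2 / k * δ p) ^ 2 := by positivity
        have h7 : (k / 2) * (a p - 2 / k * δ p) ^ 2 = k / 2 * a p ^ 2 - 2 * a p * δ p + 2 / k * δ p ^ 2 := by
          field_simp
          ring
        nlinarith
      have h6 := div_le_div_of_nonneg_right h5 (Nat.cast_nonneg p : (0 : ℝ) ≤ p)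
      refine h6.trans (le_of_eq ?_)
      ring
    rw [hVn]
    refine e3.trans ?_
    rw [← hV0e]
    have h8 : (1 + 2 / k) * ∑ p ∈ Q, δ p ^ 2 / (p : ℝ) ≤ (k / 8) / l :=
      (mul_le_mul_of_nonneg_left hW (by positivity)).trans hW2
    have h9 : (1 + k / 2) * Vw k T R L 0 ≤ (1 + k / 2) * ((1 + 5 * k) / l) :=
      mul_le_mul_of_nonneg_left hV0 (by linarith)
    have h10 : (1 + k / 2) * ((1 + 5 * k) / l) + (k / 8) / l ≤ (1 + 6 * k) / l := by
      rw [← mul_div_assoc, ← add_div]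
      exact div_le_div_of_nonneg_right (by nlinarith) hl0.le
    linarith

end Pool.Agent.Helper49.NW
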